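import Mathlib
import Pool.Agent.Lib.MP_6bd103_gt.Para
import Pool.Agent.Lib.MP_6bd103_gt.NonPara

/-!
# A closed image of a normal paralindelof space that is normal but not paralindelof

There are (in ZFC) normal Hausdorff spaces `X`, `Y` and a closed continuous surjection
`f : X → Y` such that `X` is paralindelof and `Y` is not.
-/

namespace Pool.Agent.Results.MP_6bd103_gt.ClosedImage

open Set Topology Pool.Agent.Lib.MP_6bd103_gt

/-- **Closed images of paralindelof spaces need not be paralindelof**, even when both spaces are
normal and Hausdorff (in particular regular). -/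
theorem result :
    ∃ (X Y : Type) (_ : TopologicalSpace X) (_ : TopologicalSpace Y) (f : X → Y),
      T4Space X ∧ T4Space Y ∧ Continuous f ∧ Function.Surjective f ∧ IsClosedMap f ∧
      Paralindelof X ∧ ¬ Paralindelof Y := by
  let W : Type := (Order.succ Cardinal.aleph0).ord.ToType
  have hIio : ∀ a : W, (Iio a).Countable := by
    intro a
    have := Cardinal.mk_Iio_toType_ord_lt a
    rw [Order.lt_succ_iff] at this
    exact Cardinal.le_aleph0_iff_set_countable.1 this
  have hIic : ∀ a : W, (Iic a).Countable := by
    intro a
    rw [← Iio_insert]
    exact (hIio a).insert a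
  have hunc : ¬ (univ : Set W).Countable := by
    intro h
    have h1 := Cardinal.le_aleph0_iff_set_countable.2 h
    rw [Cardinal.mk_univ, Cardinal.mk_ord_toType] at h1
    exact absurd h1 (not_le.2 (Order.lt_succ _))
  have hH := exists_H hIic hunc
  exact ⟨XX W, YY W, inferInstance, inferInstance, proj, inferInstance, t4YY hH,
    continuous_proj, surjective_proj hH, isClosedMap_proj, paralindelof_XX hIio,
    not_paralindelof_YY hIic hunc⟩

end Pool.Agent.Results.MP_6bd103_gt.ClosedImage
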