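import Mathlib
import Pool.Agent.Lib.MP_6bd103_gt.Defs

/-!
# Perfect images of paralindelof spaces are paralindelof

If `X` is paralindelof and `f : X → Y` is a closed continuous surjection all of whose fibres are
Lindelof (in particular if `f` is perfect), then `Y` is paralindelof.
-/

namespace Pool.Agent.Results.MP_6bd103_gt.PerfectImage

open Set Topology Pool.Agent.Lib.MP_6bd103_gt

variable {X Y : Type*} [TopologicalSpace X] [TopologicalSpace Y]

/-- An indexed family is locally countable. -/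
def LC {ι Z : Type*} [TopologicalSpace Z] (A : ι → Set Z) : Prop :=
  ∀ z : Z, ∃ N : Set Z, IsOpen N ∧ z ∈ N ∧ {i | (A i ∩ N).Nonempty}.Countable

/-- In a paralindelof space every locally countable family has a locally countable open
expansion. -/
theorem exists_expansion {ι : Type*} (hX : Paralindelof X) (A : ι → Set X) (hA : LC A) :
    ∃ E : ι → Set X, (∀ i, IsOpen (E i)) ∧ (∀ i, A i ⊆ E i) ∧ LC E := by
  obtain ⟨W, hWo, hWc, hWr, hWl⟩ := hX {N | IsOpen N ∧ {i | (A i ∩ N).Nonempty}.Countable}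
    (fun u hu => hu.1) (by
      rw [eq_univ_iff_forall]
      intro x
      obtain ⟨N, hN, hxN, hc⟩ := hA x
      exact ⟨N, ⟨hN, hc⟩, hxN⟩)
  have hW2 : ∀ w ∈ W, {i | (A i ∩ w).Nonempty}.Countable := by
    intro w hw
    obtain ⟨u, hu, hwu⟩ := hWr w hw
    refine hu.2.mono ?_
    rintro i ⟨x, hx1, hx2⟩
    exact ⟨x, hx1, hwu hx2⟩
  refine ⟨fun i => ⋃₀ {w | w ∈ W ∧ (A i ∩ w).Nonempty}, ?_, ?_, ?_⟩
  · intro i
    exact isOpen_sUnion fun w hw => hWo w hw.1
  · intro i x hx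
    have : x ∈ ⋃₀ W := by rw [hWc]; trivial
    obtain ⟨w, hw, hxw⟩ := this
    exact ⟨w, ⟨hw, ⟨x, hx, hxw⟩⟩, hxw⟩
  · intro x
    obtain ⟨N, hN, hc⟩ := hWl x
    obtain ⟨N', hN'N, hN'o, hxN'⟩ := mem_nhds_iff.1 hN
    refine ⟨N', hN'o, hxN', ?_⟩
    have : {i | (⋃₀ {w | w ∈ W ∧ (A i ∩ w).Nonempty} ∩ N').Nonempty} ⊆
        ⋃ w ∈ {v : Set X | v ∈ W ∧ (v ∩ N).Nonempty}, {i | (A i ∩ w).Nonempty} := by
      rintro i ⟨y, ⟨w, ⟨hw, hAw⟩, hyw⟩, hyN⟩
      simp only [mem_iUnion]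
      exact ⟨w, ⟨hw, ⟨y, hyw, hN'N hyN⟩⟩, hAw⟩
    refine Countable.mono this ?_
    exact hc.biUnion fun w hw => hW2 w hw.1

/-- Pushing a locally countable family forward along a closed map with Lindelof fibres: every
point of `Y` has an open neighbourhood whose preimage meets only countably many members. -/
theorem exists_nhd {ι : Type*} (f : X → Y) (hc : IsClosedMap f)
    (hL : ∀ y, IsLindelof (f ⁻¹' {y})) (A : ι → Set X) (hA : LC A) (y : Y) :
    ∃ N : Set Y, IsOpen N ∧ y ∈ N ∧ {i | (A i ∩ f ⁻¹' N).Nonempty}.Countable := by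
  choose N hNo hN hNc using hA
  obtain ⟨t, ht, hcov⟩ := (hL y).elim_nhds_subcover N (fun x _ => (hNo x).mem_nhds (hN x))
  set M : Set X := ⋃ x ∈ t, N x with hM
  have hMo : IsOpen M := isOpen_biUnion fun x _ => hNo x
  refine ⟨(f '' Mᶜ)ᶜ, (hc _ hMo.isClosed_compl).isOpen_compl, ?_, ?_⟩
  · rintro ⟨x, hx, hxy⟩
    exact hx (hcov.2 hxy)
  · have : {i | (A i ∩ f ⁻¹' (f '' Mᶜ)ᶜ).Nonempty} ⊆ ⋃ x ∈ t, {i | (A i ∩ N x).Nonempty} := by
      rintro i ⟨z, hz1, hz2⟩
      have hzM : z ∈ M := by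
        by_contra h
        exact hz2 ⟨z, h, rfl⟩
      rw [hM] at hzM
      simp only [mem_iUnion] at hzM ⊢
      obtain ⟨x, hx, hzx⟩ := hzM
      exact ⟨x, hx, z, hz1, hzx⟩
    exact Countable.mono this (ht.biUnion fun x _ => hNc x)

/-- **The image of a paralindelof space under a closed continuous surjection with Lindelof
fibres is paralindelof.** In particular this holds for perfect mappings (closed continuous
surjections with compact fibres). No separation axioms are needed. -/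
theorem result {X Y : Type*} [TopologicalSpace X] [TopologicalSpace Y] (hX : Paralindelof X)
    (f : X → Y) (hf : Continuous f) (hs : Function.Surjective f) (hc : IsClosedMap f)
    (hL : ∀ y, IsLindelof (f ⁻¹' {y})) : Paralindelof Y := by
  intro U hUo hUc
  -- Step 1: a locally countable open refinement upstairs
  obtain ⟨V, hVo, hVc, hVr, hVl⟩ := hX ((fun u => f ⁻¹' u) '' U)
    (by rintro _ ⟨u, hu, rfl⟩; exact (hUo u hu).preimage hf)
    (by
      rw [eq_univ_iff_forall]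
      intro x
      have : f x ∈ ⋃₀ U := by rw [hUc]; trivial
      obtain ⟨u, hu, hxu⟩ := this
      exact ⟨f ⁻¹' u, ⟨u, hu, rfl⟩, hxu⟩)
  have hVr' : ∀ v : V, ∃ u ∈ U, (v : Set X) ⊆ f ⁻¹' u := by
    rintro ⟨v, hv⟩
    obtain ⟨_, ⟨u, hu, rfl⟩, hvu⟩ := hVr v hv
    exact ⟨u, hu, hvu⟩
  choose g hgU hg using hVr'
  have hLV : LC (fun v : V => (v : Set X)) := by
    intro x
    obtain ⟨N, hN, hcN⟩ := hVl x
    obtain ⟨N', hN'N, hN'o, hxN'⟩ := mem_nhds_iff.1 hN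
    refine ⟨N', hN'o, hxN', ?_⟩
    have : {v : V | ((v : Set X) ∩ N').Nonempty} ⊆
        (fun v : V => (v : Set X)) ⁻¹' {v : Set X | v ∈ V ∧ (v ∩ N).Nonempty} := by
      rintro ⟨v, hv⟩ ⟨y, hy1, hy2⟩
      exact ⟨hv, y, hy1, hN'N hy2⟩
    exact Countable.mono this (hcN.preimage Subtype.val_injective)
  -- Step 2: the preimages of the images are locally countable upstairs
  have hLA : LC (fun v : V => f ⁻¹' (f '' (v : Set X))) := by
    intro x
    obtain ⟨N, hNo, hyN, hcN⟩ := exists_nhd f hc hL _ hLV (f x)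
    refine ⟨f ⁻¹' N, hNo.preimage hf, hyN, ?_⟩
    refine Countable.mono ?_ hcN
    rintro v ⟨z, ⟨w, hw, hwz⟩, hz⟩
    refine ⟨w, hw, ?_⟩
    change f w ∈ N
    rw [hwz]
    exact hz
  -- Step 3: expand them to a locally countable open family upstairs
  obtain ⟨E, hEo, hAE, hLE⟩ := exists_expansion hX _ hLA
  -- Step 4: the largest saturated open subsets
  set G : V → Set Y := fun v => (f '' (E v)ᶜ)ᶜ with hG
  have hGo : ∀ v, IsOpen (G v) := fun v => (hc _ (hEo v).isClosed_compl).isOpen_compl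
  have hVG : ∀ v : V, f '' (v : Set X) ⊆ G v := by
    rintro v _ ⟨x, hx, rfl⟩ ⟨z, hz, hzx⟩
    apply hz
    apply hAE v
    exact ⟨x, hx, hzx.symm⟩
  refine ⟨range (fun v : V => G v ∩ g v), ?_, ?_, ?_, ?_⟩
  · rintro _ ⟨v, rfl⟩
    exact (hGo v).inter (hUo _ (hgU v))
  · rw [eq_univ_iff_forall]
    intro y
    obtain ⟨x, rfl⟩ := hs y
    have : x ∈ ⋃₀ V := by rw [hVc]; trivial
    obtain ⟨v, hv, hxv⟩ := this
    exact ⟨_, ⟨⟨v, hv⟩, rfl⟩, hVG ⟨v, hv⟩ ⟨x, hxv, rfl⟩, hg ⟨v, hv⟩ hxv⟩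
  · rintro _ ⟨v, rfl⟩
    exact ⟨g v, hgU v, inter_subset_right⟩
  · intro y
    obtain ⟨N, hNo, hyN, hcN⟩ := exists_nhd f hc hL E hLE y
    refine ⟨N, hNo.mem_nhds hyN, ?_⟩
    refine Countable.mono ?_ (hcN.image (fun v : V => G v ∩ g v))
    rintro _ ⟨⟨v, rfl⟩, z, ⟨hz1, _⟩, hz2⟩
    refine ⟨v, ?_, rfl⟩
    obtain ⟨x, rfl⟩ := hs z
    refine ⟨x, ?_, hz2⟩
    by_contra h
    exact hz1 ⟨x, h, rfl⟩

end Pool.Agent.Results.MP_6bd103_gt.PerfectImage
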